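import Pool.Agent.Helper17.SA.St4

/-!
# Project SA, module LFH: lifting through a product of nonabelian simple groups with property Hit
-/

set_option autoImplicit false

open scoped Pointwise
open Equiv Pool.Agent.Helper17.SA

namespace Pool.Agent.Helper30.SA

theorem center_triv {S : Type} [Group S] (hs : IsSimpleGroup S) (hn : ∃ a b : S, a * b ≠ b * a)
    (z : S) (hz : ∀ a, z * a = a * z) : z = 1 := by
  have hmem : z ∈ Subgroup.center S := by
    rw [Subgroup.mem_center_iff]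
    intro a
    exact (hz a).symm
  rcases hs.eq_bot_or_eq_top_of_normal (Subgroup.center S) inferInstance with h | h
  · rw [h] at hmem
    exact Subgroup.mem_bot.1 hmem
  · obtain ⟨a, b, hab⟩ := hn
    exfalso
    apply hab
    have : b ∈ Subgroup.center S := by rw [h]; trivial
    exact (Subgroup.mem_center_iff.1 this a)

/-- a Sylow subgroup of `G` contains a product of Sylow subgroups of the factors of `N` -/
theorem sylow_prod {G : Type} [Group G] [Finite G] (N : Subgroup G) [N.Normal] {Ω : Type} [Finite Ω]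
    {S : Ω → Type} [∀ ω, Group (S ω)] [∀ ω, Finite (S ω)] (e : N ≃* ∀ ω, S ω) (q : ℕ) (hq : q.Prime)
    (P : Sylow q G) : ∃ V : ∀ ω, Sylow q (S ω), ∀ a : ∀ ω, S ω, (∀ ω, a ω ∈ V ω) →
      ((e.symm a : N) : G) ∈ P := by
  classical
  haveI : Fact q.Prime := ⟨hq⟩
  let V0 : ∀ ω, Sylow q (S ω) := fun ω => default
  let W0 : Subgroup (∀ ω, S ω) := Subgroup.pi Set.univ (fun ω => (V0 ω : Subgroup (S ω)))
  have hW0 : IsPGroup q W0 := by
    have hfin : Finite Ω := inferInstance
    cases nonempty_fintype Ω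
    have h1 : ∀ ω, ∃ k : ℕ, ∀ x ∈ (V0 ω : Subgroup (S ω)), x ^ q ^ k = 1 := by
      intro ω
      obtain ⟨k, hk⟩ := (IsPGroup.iff_card (p := q) (G := (V0 ω : Subgroup (S ω)))).1 (V0 ω).isPGroup'
      refine ⟨k, fun x hx => ?_⟩
      rw [← hk]
      have := pow_card_eq_one' (x := (⟨x, hx⟩ : (V0 ω : Subgroup (S ω))))
      exact congrArg Subtype.val this
    choose k hk using h1
    rintro ⟨x, hx⟩
    refine ⟨∑ ω, k ω, ?_⟩
    apply Subtype.ext
    funext ω
    change x ω ^ (q ^ ∑ ω, k ω) = 1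
    have h2 := hk ω (x ω) (hx ω (Set.mem_univ ω))
    have h3 : q ^ k ω ∣ q ^ ∑ ω, k ω :=
      pow_dvd_pow q (Finset.single_le_sum (f := k) (fun _ _ => Nat.zero_le _) (Finset.mem_univ ω))
    obtain ⟨c, hc⟩ := h3
    rw [hc, pow_mul, h2, one_pow]
  let W : Subgroup N := W0.map (e.symm.toMonoidHom)
  have hW : IsPGroup q W := hW0.map _
  obtain ⟨Q, hQ⟩ := hW.exists_le_sylow
  obtain ⟨Q', hQ'⟩ := Sylow.exists_comap_subtype_eq Q
  obtain ⟨g, hg⟩ := MulAction.exists_smul_eq G Q' P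
  have hcard : Nat.card ((P : Subgroup G).comap N.subtype) = Nat.card Q := by
    have h1 : ∀ a : N, a ∈ (Q : Subgroup N) ↔
        (MulAut.conjNormal g : MulAut N) a ∈ (P : Subgroup G).comap N.subtype := by
      intro a
      rw [← hQ', ← hg, Subgroup.mem_comap, Subgroup.mem_comap, Sylow.coe_subgroup_smul]
      have h2 : N.subtype ((MulAut.conjNormal g : MulAut N) a) = MulAut.conj g • (N.subtype a) := by
        rw [MulAut.smul_def, MulAut.conj_apply]
        exact MulAut.conjNormal_apply g a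
      rw [h2, Subgroup.smul_mem_pointwise_smul_iff]
    exact (Nat.card_congr ((MulAut.conjNormal g : MulAut N).toEquiv.subtypeEquiv h1)).symm
  let P1 : Sylow q N := Sylow.ofCard ((P : Subgroup G).comap N.subtype) (by
    rw [hcard, Q.card_eq_multiplicity])
  obtain ⟨n, hn⟩ := MulAction.exists_smul_eq N Q P1
  refine ⟨fun ω => (e n ω) • V0 ω, fun a ha => ?_⟩
  have hb : ∀ ω, (e n ω)⁻¹ * a ω * e n ω ∈ (V0 ω : Subgroup (S ω)) := by
    intro ω
    have h1 : a ω ∈ ((e n ω • V0 ω : Sylow q (S ω)) : Subgroup (S ω)) := ha ω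
    rw [Sylow.coe_subgroup_smul, Subgroup.mem_pointwise_smul_iff_inv_smul_mem] at h1
    have h2 : ((MulAut.conj (e n ω))⁻¹ • a ω) = (e n ω)⁻¹ * a ω * e n ω := by
      rw [← map_inv, MulAut.smul_def, MulAut.conj_apply, inv_inv]
    rwa [h2] at h1
  let b : ∀ ω, S ω := (e n)⁻¹ * a * e n
  have hbW : e.symm b ∈ W := ⟨b, fun ω _ => hb ω, rfl⟩
  have h3 : e.symm a = n * e.symm b * n⁻¹ := by
    apply e.injective
    rw [map_mul, map_mul, MulEquiv.apply_symm_apply, MulEquiv.apply_symm_apply, map_inv]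
    change a = e n * ((e n)⁻¹ * a * e n) * (e n)⁻¹
    group
  have h4 : e.symm a ∈ (P1 : Subgroup N) := by
    rw [← hn, Sylow.coe_subgroup_smul, h3]
    have h5 : n * e.symm b * n⁻¹ = MulAut.conj n • e.symm b := by
      rw [MulAut.smul_def, MulAut.conj_apply]
    rw [h5, Subgroup.smul_mem_pointwise_smul_iff]
    exact hQ hbW
  exact h4

/-- no normal `q`-subgroups -/
theorem noq {G : Type} [Group G] [Finite G] (N : Subgroup G) [N.Normal] {Ω : Type} [Finite Ω]
    {S : Ω → Type} [∀ ω, Group (S ω)] [∀ ω, Finite (S ω)] (e : N ≃* ∀ ω, S ω)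
    (hsimp : ∀ ω, IsSimpleGroup (S ω)) (hnc : ∀ ω, ∃ a b : S ω, a * b ≠ b * a)
    (q : ℕ) (M : Subgroup G) [M.Normal] (hq : q.Prime) (hMN : M ≤ N) (hM : IsPGroup q M) : M = ⊥ := by
  classical
  haveI : Fact q.Prime := ⟨hq⟩
  let T : Subgroup N := M.comap N.subtype
  have hT : T.Normal := inferInstanceAs (M.comap N.subtype).Normal
  have hTp : IsPGroup q T := hM.comap_subtype
  have hTω : ∀ ω, (T.map e.toMonoidHom).map (Pi.evalMonoidHom S ω) = ⊥ := by
    intro ω
    have hn1 : (T.map e.toMonoidHom).Normal := hT.map _ e.surjective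
    have hn2 : ((T.map e.toMonoidHom).map (Pi.evalMonoidHom S ω)).Normal :=
      hn1.map _ (Function.surjective_eval ω)
    have hp2 : IsPGroup q ((T.map e.toMonoidHom).map (Pi.evalMonoidHom S ω)) := (hTp.map _).map _
    rcases (hsimp ω).eq_bot_or_eq_top_of_normal _ hn2 with h | h
    · exact h
    · exfalso
      rw [h] at hp2
      have hp3 : IsPGroup q (S ω) := hp2.of_equiv Subgroup.topEquiv
      haveI : Nontrivial (S ω) := (hsimp ω).toNontrivial
      have hc := hp3.center_nontrivial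
      obtain ⟨z, hz⟩ := exists_ne (1 : Subgroup.center (S ω))
      apply hz
      apply Subtype.ext
      apply center_triv (hsimp ω) (hnc ω)
      intro a
      exact (Subgroup.mem_center_iff.1 z.2 a).symm
  rw [Subgroup.eq_bot_iff_forall]
  intro m hm
  have h1 : e ⟨m, hMN hm⟩ = 1 := by
    funext ω
    have h2 : e ⟨m, hMN hm⟩ ω ∈ (T.map e.toMonoidHom).map (Pi.evalMonoidHom S ω) :=
      ⟨e ⟨m, hMN hm⟩, ⟨⟨m, hMN hm⟩, hm, rfl⟩, rfl⟩
    rw [hTω ω] at h2
    exact Subgroup.mem_bot.1 h2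
  have h6 : (⟨m, hMN hm⟩ : N) = 1 := by
    apply e.injective
    rw [h1, map_one]
  exact congrArg Subtype.val h6

theorem pLFH : StMNH → StLF3 → StLFH := by
  classical
  intro hMN hLF3 G _ _ N _ Ω _ S _ hsimp hnc hhit ⟨e⟩ ι _ p hp hinj hstar hsync P
  have hfinpi : Finite (∀ ω, S ω) := Finite.of_equiv N e.toEquiv
  haveI hfin : ∀ ω, Finite (S ω) := fun ω =>
    Finite.of_injective (fun a : S ω => (Pi.mulSingle ω a : ∀ ω, S ω)) (Pi.mulSingle_injective ω)
  have hcent : ∀ m ∈ N, (∀ m' ∈ N, m * m' = m' * m) → m = 1 := by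
    intro m hm hc
    have h1 : e ⟨m, hm⟩ = 1 := by
      funext ω
      apply center_triv (hsimp ω) (hnc ω)
      intro a
      have h2 := hc (e.symm (Pi.mulSingle ω a)) (e.symm (Pi.mulSingle ω a)).2
      have h3 : (⟨m, hm⟩ : N) * e.symm (Pi.mulSingle ω a) =
          e.symm (Pi.mulSingle ω a) * ⟨m, hm⟩ := Subtype.ext h2
      have h4 := congrArg e h3
      rw [map_mul, map_mul, MulEquiv.apply_symm_apply] at h4
      have h5 := congrFun h4 ω
      simpa using h5
    have h6 : (⟨m, hm⟩ : N) = 1 := by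
      apply e.injective
      rw [h1, map_one]
    exact congrArg Subtype.val h6
  obtain ⟨h, R, c, hcN, hRp, hcomm, hx, hlast, hPN, hst⟩ := hLF3 G N hcent
    (fun q M _ hq hM hMp => noq N e hsimp hnc q M hq hM hMp) ι p hp hinj hsync P
  let ρ : G →* MulAut (∀ ω, S ω) := (MulAut.congr e).toMonoidHom.comp MulAut.conjNormal
  have hρ : ∀ (g : G) (v : ∀ ω, S ω), ρ g v = e (MulAut.conjNormal g (e.symm v)) :=
    fun g v => rfl
  have hρN : ∀ (n : N), ρ n = MulAut.conj (e n) := by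
    intro n
    ext1 v
    rw [hρ, MulAut.conj_apply]
    have : MulAut.conjNormal (n : G) (e.symm v) = n * e.symm v * n⁻¹ := by
      apply Subtype.ext
      rw [MulAut.conjNormal_apply]
      rfl
    rw [this, map_mul, map_mul, MulEquiv.apply_symm_apply, map_inv]
  have hker : ∀ y : G, ρ y = 1 → ∀ m ∈ N, y * m = m * y := by
    intro y h1 m hm
    have h4 : ρ y (e ⟨m, hm⟩) = e ⟨m, hm⟩ := by
      rw [h1]
      rfl
    rw [hρ, MulEquiv.symm_apply_apply] at h4
    have h5 := congrArg Subtype.val (e.injective h4)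
    rw [MulAut.conjNormal_apply] at h5
    have h6 : y * m * y⁻¹ = m := h5
    calc y * m = (y * m * y⁻¹) * y := by group
      _ = m * y := by rw [h6]
  have hker' : ∀ y : G, (∀ m ∈ N, y * m = m * y) → ρ y = 1 := by
    intro y hy
    ext1 v
    rw [hρ]
    have h1 : MulAut.conjNormal y (e.symm v) = e.symm v := by
      apply Subtype.ext
      rw [MulAut.conjNormal_apply, hy _ (e.symm v).2]
      group
    rw [h1, MulEquiv.apply_symm_apply]
    rfl
  have hρc : ∀ (i : ι) (n : N), ρ (c i * n) = MulAut.conj (e ⟨c i, hcN i⟩ * e n) := by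
    intro i n
    have := hρN (⟨c i, hcN i⟩ * n)
    rw [map_mul] at this
    exact this
  obtain ⟨n, hn⟩ := hMN Ω S hsimp hnc hhit ι p (fun i => (R i).map ρ)
    (fun i => e ⟨c i, hcN i⟩) hp hinj (fun i => (hRp i).map ρ) (by
      intro i j hij y hy z hz
      obtain ⟨y0, hy0, rfl⟩ := hy
      obtain ⟨z0, hz0, rfl⟩ := hz
      obtain ⟨m, hm, hyz⟩ := hcomm i j hij y0 hy0 z0 hz0
      refine ⟨e ⟨m, hm⟩, ?_⟩
      rw [← hρN ⟨m, hm⟩]
      change ρ y0 * ρ z0 = ρ m * (ρ z0 * ρ y0)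
      rw [← map_mul, hyz, map_mul, map_mul]) (by
      intro i hi
      refine ⟨?_, ?_⟩
      · have hV : ∃ V : ∀ ω, Sylow (p i) (S ω), ∀ a : ∀ ω, S ω, (∀ ω, a ω ∈ V ω) →
            MulAut.conj a ∈ (R i).map ρ := by
          obtain ⟨V, hV⟩ := sylow_prod N e (p i) (hp i) (P i)
          refine ⟨V, fun a ha => ⟨((e.symm a : N) : G), hPN i ⟨hV a ha, (e.symm a).2⟩, ?_⟩⟩
          rw [hρN, MulEquiv.apply_symm_apply]
        rw [hi] at hV
        exact hV
      · obtain ⟨n2, hn2, h2⟩ := hst i (by rw [hi]; exact hstar i hi)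
        refine ⟨e ⟨n2, hn2⟩, ?_⟩
        intro y hy hyr
        obtain ⟨y0, hy0, rfl⟩ := hy
        obtain ⟨r, hr, hrr⟩ := hyr
        have h3 : ρ ((c i * n2) * y0 * (c i * n2)⁻¹) = ρ r := by
          rw [hrr, map_mul, map_mul, map_inv]
          rw [hρc i ⟨n2, hn2⟩]
        apply hker'
        apply h2 y0 hy0 (((c i * n2) * y0 * (c i * n2)⁻¹)⁻¹ * r)
        · apply hker
          rw [map_mul, map_inv, h3, inv_mul_cancel]
        · rw [mul_inv_cancel_left]
          exact hr)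
  refine ⟨h * (e.symm n : N), fun i => le_antisymm ?_ ?_⟩
  · intro y hy
    obtain ⟨hy1, hy2⟩ := Subgroup.mem_inf.1 hy
    rw [Subgroup.mem_pointwise_smul_iff_inv_smul_mem] at hy2
    have hy3 : (h * (e.symm n : N)) * y * (h * (e.symm n : N))⁻¹ ∈ (P i : Subgroup G) := by
      have : ((MulAut.conj (h * ((e.symm n : N) : G))⁻¹)⁻¹ • y) =
          (h * (e.symm n : N)) * y * (h * (e.symm n : N))⁻¹ := by
        rw [← map_inv, inv_inv, MulAut.smul_def, MulAut.conj_apply]
      rw [← this]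
      exact hy2
    obtain ⟨hyR, hyR2⟩ := hx (e.symm n : N) (e.symm n).2 i y hy1 hy3
    have h1 : ρ y = 1 := by
      apply hn i (ρ y) ⟨y, hyR, rfl⟩
      refine ⟨_, hyR2, ?_⟩
      rw [map_mul, map_mul, map_inv]
      have h2 : ρ (c i * (e.symm n : N)) = MulAut.conj (e ⟨c i, hcN i⟩ * n) := by
        have := hρc i (e.symm n)
        rwa [MulEquiv.apply_symm_apply] at this
      rw [h2]
    rw [Subgroup.mem_iInf]
    intro Q
    exact hlast i y hyR (hker y h1) Q
  · refine le_inf (iInf_le _ (P i)) ?_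
    have := iInf_le (fun Q : Sylow (p i) G => (Q : Subgroup G))
      ((h * ((e.symm n : N) : G))⁻¹ • P i)
    exact this

end Pool.Agent.Helper30.SA
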